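import Pool.Agent.helper74.PC2.LEN2D
import Pool.Agent.helper13.PC2.HRELD
import Pool.Agent.helper26.PC.NF

/-!
# PC project (second half), module NFD2: the formula for `N` in type `D_n`
-/

namespace Pool.Agent.helper27.PC

open Module Polynomial

theorem NFD2_lift {n : ℕ} (l : List ℕ) (hl : ∀ i ∈ l, i < n) :
    ∃ l' : List (Fin n), l'.map Fin.val = l := by
  induction l with
  | nil => exact ⟨[], rfl⟩
  | cons a l ih =>
    obtain ⟨l', h⟩ := ih (fun i hi => hl i (by simp [hi]))
    exact ⟨⟨a, hl a (by simp)⟩ :: l', by simp [h]⟩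

theorem NFD2_gD_sq {n : ℕ} (i : ℕ) : gD n i * gD n i = 1 := by
  have hg : ∀ j, g n j * g n j = 1 := by
    intro j
    exact inv_eq_iff_mul_eq_one.1 (NF_g_inv j)
  unfold gD
  split_ifs with h
  · apply Subtype.ext
    show (if i = 0 then g n 0 * g n 1 * g n 0 else gen n ⟨i, h⟩) *
      (if i = 0 then g n 0 * g n 1 * g n 0 else gen n ⟨i, h⟩) = 1
    split_ifs
    · calc g n 0 * g n 1 * g n 0 * (g n 0 * g n 1 * g n 0)
          = g n 0 * g n 1 * (g n 0 * g n 0) * g n 1 * g n 0 := by group
        _ = g n 0 * (g n 1 * g n 1) * g n 0 := by rw [hg 0]; group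
        _ = 1 := by rw [hg 1, mul_one, hg 0]
    · exact NF_gen_sq _
  · simp

theorem NFD2_gD_inv {n : ℕ} (i : ℕ) : (gD n i)⁻¹ = gD n i :=
  inv_eq_iff_mul_eq_one.2 (NFD2_gD_sq i)

theorem NFD2_prod_inv {n : ℕ} (l : List ℕ) :
    ((l.map (gD n)).prod)⁻¹ = (l.reverse.map (gD n)).prod := by
  rw [List.prod_inv_reverse, List.map_reverse, List.map_map]
  congr 2
  apply List.map_congr_left
  intro i _
  exact NFD2_gD_inv i

theorem NFD2_genprod_inv {ι G : Type} [Group G] (s : ι → G) (hs : ∀ i, s i * s i = 1) (l : List ι) :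
    ((l.map s).prod)⁻¹ = (l.reverse.map s).prod := by
  rw [List.prod_inv_reverse, List.map_reverse, List.map_map]
  congr 2
  apply List.map_congr_left
  intro i _
  exact inv_eq_iff_mul_eq_one.2 (hs i)

theorem NFD2_glen_inv {ι G : Type} [Group G] (s : ι → G) (hs : ∀ i, s i * s i = 1) (w : G) :
    glen s w⁻¹ = glen s w := by
  unfold glen
  congr 1
  ext k
  constructor
  · rintro ⟨l, h1, h2⟩
    refine ⟨l.reverse, by simpa using h1, ?_⟩
    rw [← NFD2_genprod_inv s hs, h2, inv_inv]
  · rintro ⟨l, h1, h2⟩
    refine ⟨l.reverse, by simpa using h1, ?_⟩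
    rw [← NFD2_genprod_inv s hs, h2]

theorem NFD2_dword_append (l l' : List ℕ) : ∀ p,
    dword p (l ++ l') = dword p l ++ dword (p ^^ decide (Odd (l.count 0))) l' := by
  induction l with
  | nil => intro p; simp [dword]
  | cons a l ih =>
    intro p
    match a with
    | 0 =>
      rw [List.cons_append, dword, ih, dword, List.count_cons_self]
      congr 2
      by_cases h : Odd (l.count 0) <;> simp [h, Nat.odd_add_one]
    | 1 =>
      rw [List.cons_append, dword, ih, dword, List.count_cons_of_ne (by decide), List.cons_append]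
    | i + 2 =>
      rw [List.cons_append, dword, ih, dword, List.count_cons_of_ne (by simp), List.cons_append]

theorem NFD2_dword_reverse (l : List ℕ) : ∀ p,
    dword p l.reverse = (dword (p ^^ decide (Odd (l.count 0))) l).reverse := by
  induction l with
  | nil => intro p; simp [dword]
  | cons a l ih =>
    intro p
    rw [List.reverse_cons, NFD2_dword_append, ih, List.count_reverse]
    match a with
    | 0 =>
      rw [List.count_cons_self]
      have e : (p ^^ decide (Odd (l.count 0 + 1))) = !(p ^^ decide (Odd (l.count 0))) := by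
        by_cases h : Odd (l.count 0) <;> simp [h, Nat.odd_add_one]
      rw [e]
      simp [dword]
    | 1 =>
      rw [List.count_cons_of_ne (by decide)]
      simp [dword]
    | i + 2 =>
      rw [List.count_cons_of_ne (by simp)]
      simp [dword]

theorem NFD2_T (hTWG : TWG_stmt) (hGEND : GEND_stmt) {n : ℕ} {H : Type} [Ring H] [Algebra A H]
    (T : Basis (WD n) A H) (hT : GHecke (genD n) T) (l : List ℕ) (hl : ∀ i ∈ l, i < n)
    (h : glen (genD n) ((l.map (gD n)).prod) = l.length) :
    T ((l.map (gD n)).prod) = (l.map fun i => T (gD n i)).prod := by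
  obtain ⟨l', rfl⟩ := NFD2_lift l hl
  have e : ∀ i : Fin n, gD n i.val = genD n i := fun i => HRELD_gD i.isLt
  have e1 : (l'.map Fin.val).map (gD n) = l'.map (genD n) := by
    rw [List.map_map]
    apply List.map_congr_left
    intro i _
    exact e i
  have e2 : ((l'.map Fin.val).map fun i => T (gD n i)) = l'.map fun i => T (genD n i) := by
    rw [List.map_map]
    apply List.map_congr_left
    intro i _
    show T (gD n i.val) = T (genD n i)
    rw [e i]
  rw [e1] at h ⊢
  rw [e2]
  rw [List.length_map] at h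
  exact (hTWG (Fin n) (WD n) (genD n) (hGEND n) H T hT).2 l' h

theorem NFD2 (hTRD : TRD_stmt) (hLEN : LEN2D_stmt) (hTWG : TWG_stmt) (hGEND : GEND_stmt) :
    NFD2_stmt := by
  classical
  intro n H _ _ T hn hT β α hTyp hE K _ _ hinj
  have hlt : ∀ i ∈ word2 β α, i < n := LEN2B_word_lt hTyp
  have hlt' : ∀ i ∈ (word2 β α).reverse, i < n := fun i hi => hlt i (by simpa using hi)
  obtain ⟨-, hlen, -⟩ := hLEN n β α hn hTyp hE
  have hE1 : Even ((word2 β α).count 0) := by rw [LEN2D_count]; exact hE
  have hE2 : Even ((word2 β α).reverse.count 0) := by rw [List.count_reverse]; exact hE1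
  have hrev : (dword false (word2 β α)).reverse = dword false (word2 β α).reverse := by
    rw [NFD2_dword_reverse]
    have : ¬ Odd ((word2 β α).count 0) := Nat.not_odd_iff_even.2 hE1
    simp [this]
  have hs : ∀ i, genD n i * genD n i = 1 := by
    intro i
    have := NFD2_gD_sq (n := n) i.val
    rwa [HRELD_gD i.isLt] at this
  have h1 : T (stdD n β α) = ((dword false (word2 β α)).map fun i => T (gD n i)).prod := by
    apply NFD2_T hTWG hGEND T hT _ (LEN2D_dword_lt hn _ hlt false)
    rw [LEN2D_dword_length]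
    exact hlen
  have h2 : T (stdD n β α)⁻¹ =
      ((dword false (word2 β α).reverse).map fun i => T (gD n i)).prod := by
    have e : (stdD n β α)⁻¹ = ((dword false (word2 β α).reverse).map (gD n)).prod := by
      rw [← hrev]
      exact NFD2_prod_inv _
    rw [e]
    apply NFD2_T hTWG hGEND T hT _ (LEN2D_dword_lt hn _ hlt' false)
    rw [← e, NFD2_glen_inv _ hs, hlen, ← hrev, List.length_reverse, LEN2D_dword_length]
  have hN : GN (genD n) T (stdD n β α) = v ^ (2 * glen (genD n) (stdD n β α)) * LinearMap.trace A H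
      (LinearMap.mulLeft A (((dword false (word2 β α)).map fun i => T (gD n i)).prod) ∘ₗ
      LinearMap.mulRight A (((dword false (word2 β α).reverse).map fun i => T (gD n i)).prod)) := by
    have e0 : ∀ (c : A) (a b : H), LinearMap.mulLeft A (c • a) ∘ₗ LinearMap.mulRight A b =
        c • (LinearMap.mulLeft A a ∘ₗ LinearMap.mulRight A b) := by
      intro c a b
      ext x
      simp
    unfold GN
    rw [← h1, ← h2, e0, (LinearMap.trace A H).map_smul, smul_eq_mul]
  rw [hN, map_mul, hlen, map_pow]
  have hQ : ∀ q : K, Qt false q = 1 := fun q => by simp [Qt]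
  rw [hQ]
  set q := algebraMap A K v with hq
  have key := hTRD n H T hn hT K hinj _ _ hlt hlt' hE1 hE2
  rw [← hq] at key
  rw [mul_left_comm, key, mul_add, Finset.mul_sum, Finset.mul_sum]
  congr 1
  · apply Finset.sum_congr rfl
    intro S _
    rw [two_mul, pow_add]
    ring
  · apply Finset.sum_congr rfl
    intro S _
    rw [two_mul, pow_add]
    ring

end Pool.Agent.helper27.PC
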