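import Pool.Agent.helper93.PC.SD
import Pool.Agent.helper27.PC2.Stmt2

/-!
# PC project, module SDD: positivity for super-decreasing types, type `D`
-/

namespace Pool.Agent.helper27.PC

open Module Polynomial Finset

/-- the exponent of one step -/
def SDD_ex (m k a : ℕ) (l : Lab) : ℕ := k + a + l.2 - m

/-- the potential -/
def SDD_F (m k : ℕ) (S : St) : ℤ :=
  ∑ p ∈ SD_pos true S, (p : ℤ) ^ 2 + ∑ p ∈ SD_pos false S, (p : ℤ) ^ 2 + k ^ 2 - 2 * m * k

theorem SDD_F_move {m k a : ℕ} {S : St} {l : Lab} (hS : SD_Good m k S) (hl : l ∈ addable a S) :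
    (2 * a * SDD_ex m k a l : ℤ) = SDD_F m (k + a) (move a S l) - SDD_F m k S := by
  obtain ⟨h1, h2⟩ := SD_add hl
  have h3 := SD_good_hole hS h2
  obtain ⟨b, p⟩ := l
  simp only at h1 h2 h3
  unfold SDD_F SDD_ex
  have e : ((k + a + p - m : ℕ) : ℤ) = k + a + p - m := by
    rw [Nat.cast_sub (by omega)]; push_cast; ring
  simp only
  rw [e]
  cases b
  · rw [SD_pos_move true, SD_pos_move false, if_neg (by simp), if_pos rfl,
      SD_sum_move (fun x : ℕ => (x : ℤ) ^ 2) h1 h2]
    push_cast; ring
  · rw [SD_pos_move false, SD_pos_move true, if_pos rfl, if_neg (by simp),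
      SD_sum_move (fun x : ℕ => (x : ℤ) ^ 2) h1 h2]
    push_cast; ring

theorem SDD_wT (m k a : ℕ) (l : Lab) :
    wT false m k a l = C (if l.1 then 1 else -1) * X ^ SDD_ex m k a l := by
  unfold wT SDD_ex
  rw [if_neg (by simp)]
  split_ifs with h
  · simp
  · simp

/-! ### the operators `fockT` -/

theorem SDD_fock_add (m : ℕ) (l : List ℕ) : ∀ (k : ℕ) (u u' : St →₀ ℤ[X]),
    fockT false m k l (u + u') = fockT false m k l u + fockT false m k l u' := by
  induction l with
  | nil => intro k u u'; rfl
  | cons a l ih => intro k u u'; simp only [fockT]; rw [map_add, ih]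

theorem SDD_fock_smul (m : ℕ) (l : List ℕ) : ∀ (k : ℕ) (c : ℤ[X]) (u : St →₀ ℤ[X]),
    fockT false m k l (c • u) = c • fockT false m k l u := by
  induction l with
  | nil => intro k c u; rfl
  | cons a l ih => intro k c u; simp only [fockT]; rw [map_smul, ih]

/-- `fockT` as a linear map -/
noncomputable def SDD_fL (m k : ℕ) (l : List ℕ) : (St →₀ ℤ[X]) →ₗ[ℤ[X]] (St →₀ ℤ[X]) where
  toFun := fockT false m k l
  map_add' := SDD_fock_add m l k
  map_smul' := SDD_fock_smul m l k

theorem SDD_fock_append (m : ℕ) (l l' : List ℕ) : ∀ (k : ℕ) (u : St →₀ ℤ[X]),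
    fockT false m k (l ++ l') u = fockT false m (k + l.sum) l' (fockT false m k l u) := by
  induction l with
  | nil => intro k u; simp [fockT]
  | cons a l ih =>
    intro k u
    simp only [List.cons_append, fockT, List.sum_cons]
    rw [ih, add_assoc]

/-- the entries for one group of equal parts, starting from one state -/
theorem SDD_path (m a : ℕ) (ha : 1 ≤ a) : ∀ (j k : ℕ) (M S : St), SD_Good m k M →
    ∃ (c : ℤ) (e : ℕ), fockT false m k (List.replicate j a) (Finsupp.single M 1) S = C c * X ^ e ∧
      (c ≠ 0 → SD_Good m (k + j * a) S ∧ (∀ b r, SD_nb a S b r = SD_nb a M b r) ∧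
        (2 * a * e : ℤ) = SDD_F m (k + j * a) S - SDD_F m k M) := by
  intro j
  induction j with
  | zero =>
    intro k M S hM
    simp only [List.replicate_zero, fockT]
    by_cases h : M = S
    · subst h
      refine ⟨1, 0, by simp, fun _ => ⟨by simpa using hM, fun _ _ => rfl, by simp⟩⟩
    · refine ⟨0, 0, ?_, fun h' => absurd rfl h'⟩
      rw [Finsupp.single_eq_of_ne (by tauto)]
      simp
  | succ j ih =>
    intro k M S hM
    rw [List.replicate_succ]
    simp only [fockT]
    rw [SD_Rib_single]
    have e1 : fockT false m (k + a) (List.replicate j a) (∑ l ∈ addable a M,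
          ((-1) ^ cnt M l a * wT false m k a l) • Finsupp.single (move a M l) (1 : ℤ[X])) S =
        ∑ l ∈ addable a M, ((-1) ^ cnt M l a * wT false m k a l) *
          fockT false m (k + a) (List.replicate j a) (Finsupp.single (move a M l) 1) S := by
      have := map_sum (SDD_fL m (k + a) (List.replicate j a)) (fun l =>
        ((-1) ^ cnt M l a * wT false m k a l) • Finsupp.single (move a M l) (1 : ℤ[X]))
        (addable a M)
      simp only [SDD_fL, LinearMap.coe_mk, AddHom.coe_mk] at this
      rw [this, Finsupp.finsetSum_apply]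
      apply sum_congr rfl
      intro l _
      rw [SDD_fock_smul, Finsupp.smul_apply, smul_eq_mul]
    rw [e1]
    have h2 : ∀ l : Lab, ∃ (c : ℤ) (e : ℕ), l ∈ addable a M →
        fockT false m (k + a) (List.replicate j a) (Finsupp.single (move a M l) 1) S =
          C c * X ^ e ∧
      (c ≠ 0 → SD_Good m (k + a + j * a) S ∧ (∀ b r, SD_nb a S b r = SD_nb a (move a M l) b r) ∧
        (2 * a * e : ℤ) = SDD_F m (k + a + j * a) S - SDD_F m (k + a) (move a M l)) := by
      intro l
      by_cases hl : l ∈ addable a M
      · obtain ⟨c, e, h⟩ := ih (k + a) (move a M l) S (SD_good_move hM hl)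
        exact ⟨c, e, fun _ => h⟩
      · exact ⟨0, 0, fun h => absurd h hl⟩
    choose c e h2 using h2
    have hk : k + (j + 1) * a = k + a + j * a := by ring
    have h3 : ∀ l ∈ addable a M, c l ≠ 0 →
        (2 * a * (SDD_ex m k a l + e l : ℕ) : ℤ) = SDD_F m (k + (j + 1) * a) S - SDD_F m k M := by
      intro l hl hc
      have h4 := ((h2 l hl).2 hc).2.2
      have h5 := SDD_F_move hM hl
      rw [hk]
      push_cast at h4 h5 ⊢
      linarith
    obtain ⟨c', e', h6, h7⟩ := SD_mono_sum (addable a M)
      (fun l => ((-1) ^ cnt M l a * wT false m k a l) *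
          fockT false m (k + a) (List.replicate j a) (Finsupp.single (move a M l) 1) S)
      (fun l => (-1) ^ cnt M l a * (if l.1 then 1 else -1) * c l) (fun l => SDD_ex m k a l + e l)
      (by
        intro l hl
        rw [(h2 l hl).1, SDD_wT]
        simp only [map_mul, map_pow, map_neg, map_one]
        ring)
      (by
        intro i hi i' hi' hc hc'
        have h8 := h3 i hi (right_ne_zero_of_mul hc)
        have h9 := h3 i' hi' (right_ne_zero_of_mul hc')
        rw [← h9] at h8
        have h10 : (2 * (a : ℤ)) ≠ 0 := by positivity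
        have := mul_left_cancel₀ h10 h8
        exact_mod_cast this)
    refine ⟨c', e', h6, ?_⟩
    intro hc'
    obtain ⟨l, hl, hc, he⟩ := h7 hc'
    have hcl := right_ne_zero_of_mul hc
    obtain ⟨h8, h9, _⟩ := (h2 l hl).2 hcl
    refine ⟨by rw [hk]; exact h8, fun b r => by rw [h9, SD_nb_move hl], ?_⟩
    rw [he]
    exact h3 l hl hcl

/-- one group of equal parts -/
theorem SDD_group {m a : ℕ} (ha : 1 ≤ a) (j k : ℕ) (hk : k < a) (u : St →₀ ℤ[X])
    (hu : ∀ S, u S ≠ 0 → SD_Good m k S) (hmono : ∀ S, ∃ (c : ℤ) (e : ℕ), u S = C c * X ^ e) :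
    (∀ S, fockT false m k (List.replicate j a) u S ≠ 0 → SD_Good m (k + j * a) S) ∧
      ∀ S, ∃ (c : ℤ) (e : ℕ), fockT false m k (List.replicate j a) u S = C c * X ^ e := by
  have e1 : ∀ S, fockT false m k (List.replicate j a) u S =
      ∑ M ∈ u.support, u M *
        fockT false m k (List.replicate j a) (Finsupp.single M 1) S := by
    intro S
    have h1 : u = ∑ M ∈ u.support, u M • Finsupp.single M (1 : ℤ[X]) := by
      conv_lhs => rw [← Finsupp.sum_single u]
      unfold Finsupp.sum
      apply sum_congr rfl
      intro M _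
      rw [Finsupp.smul_single, smul_eq_mul, mul_one]
    have := map_sum (SDD_fL m k (List.replicate j a))
      (fun M => u M • Finsupp.single M (1 : ℤ[X])) u.support
    rw [← h1] at this
    simp only [SDD_fL, LinearMap.coe_mk, AddHom.coe_mk] at this
    rw [this, Finsupp.finsetSum_apply]
    apply sum_congr rfl
    intro M _
    rw [SDD_fock_smul, Finsupp.smul_apply, smul_eq_mul]
  have hG : ∀ M ∈ u.support, SD_Good m k M := fun M hM => hu M (Finsupp.mem_support_iff.1 hM)
  constructor
  · intro S hS
    rw [e1] at hS
    obtain ⟨M, hM, h2⟩ := exists_ne_zero_of_sum_ne_zero hS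
    obtain ⟨c, e, h3, h4⟩ := SDD_path m a ha j k M S (hG M hM)
    apply (h4 _).1
    rintro rfl
    apply h2
    rw [h3]; simp
  · intro S
    rw [e1]
    by_cases h : ∃ M ∈ u.support,
        fockT false m k (List.replicate j a) (Finsupp.single M 1) S ≠ 0
    · obtain ⟨M, hM, h2⟩ := h
      rw [sum_eq_single_of_mem M hM]
      · obtain ⟨c, e, h3, -⟩ := SDD_path m a ha j k M S (hG M hM)
        obtain ⟨c', e', h4⟩ := hmono M
        refine ⟨c' * c, e' + e, ?_⟩
        rw [h3, h4, C_mul, pow_add]; ring
      · intro M' hM' hne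
        by_contra h5
        have h6 := right_ne_zero_of_mul h5
        apply hne
        obtain ⟨c, e, h3, h4⟩ := SDD_path m a ha j k M S (hG M hM)
        obtain ⟨c', e', h3', h4'⟩ := SDD_path m a ha j k M' S (hG M' hM')
        have hc : c ≠ 0 := by
          rintro rfl
          apply h2; rw [h3]; simp
        have hc' : c' ≠ 0 := by
          rintro rfl
          apply h6; rw [h3']; simp
        apply SD_nb_inj hk (hG M' hM') (hG M hM)
        intro b r
        rw [← (h4 hc).2.1, ← (h4' hc').2.1]
    · push Not at h
      refine ⟨0, 0, ?_⟩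
      rw [map_zero, zero_mul]
      apply sum_eq_zero
      intro M hM
      rw [h M hM, mul_zero]

/-- the entries of the vector are signed monomials -/
theorem SDD_vec (m : ℕ) : ∀ (N : ℕ) (l : List ℕ), l.length = N → (∀ a ∈ l, 1 ≤ a) →
    l.Pairwise (· ≤ ·) → SuperDecreasing l →
    (∀ S, vecT false m l S ≠ 0 → SD_Good m l.sum S) ∧
      ∀ S, ∃ (c : ℤ) (e : ℕ), vecT false m l S = C c * X ^ e := by
  intro N
  induction N using Nat.strong_induction_on with
  | _ N ih =>
    intro l hN h1 hs hsd
    by_cases hl : l = []
    · subst hl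
      unfold vecT
      simp only [fockT, List.sum_nil]
      constructor
      · intro S hS
        by_cases h : vac m = S
        · rw [← h]; exact SD_good_vac m
        · rw [Finsupp.single_eq_of_ne (by tauto)] at hS
          exact absurd rfl hS
      · intro S
        by_cases h : vac m = S
        · exact ⟨1, 0, by rw [h]; simp⟩
        · exact ⟨0, 0, by rw [Finsupp.single_eq_of_ne (by tauto)]; simp⟩
    · set a := l.getLast hl with ha
      have hal : a ∈ l := List.getLast_mem hl
      have hmax : ∀ x ∈ l, x ≤ a := by
        intro x hx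
        have h2 : l = l.dropLast ++ [a] := (List.dropLast_append_getLast hl).symm
        rw [h2] at hs hx
        rw [List.pairwise_append] at hs
        rcases List.mem_append.1 hx with h3 | h3
        · exact hs.2.2 x h3 a (by simp)
        · simp only [List.mem_singleton] at h3
          omega
      have h2 := SD_split l hs a hmax
      set R := l.filter (· < a) with hR
      set j := l.count a with hj
      have hRsum : R.sum < a := hsd a hal
      have hRl : R.length < N := by
        rw [← hN]
        conv_rhs => rw [h2]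
        rw [List.length_append, List.length_replicate]
        have : 0 < j := List.count_pos_iff.2 hal
        omega
      have hsub : ∀ x ∈ R, x ∈ l ∧ x < a := by
        intro x hx
        rw [hR, List.mem_filter] at hx
        exact ⟨hx.1, by simpa using hx.2⟩
      have hRsd : SuperDecreasing R := by
        intro x hx
        have h3 := hsd x (hsub x hx).1
        have h4 : R.filter (· < x) = l.filter (· < x) := by
          rw [hR, List.filter_filter]
          apply List.filter_congr
          intro y _
          have := (hsub x hx).2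
          by_cases hy : y < x
          · simp [hy, show y < a by omega]
          · simp [hy]
        rw [h4]; exact h3
      obtain ⟨h5, h6⟩ := ih R.length hRl R rfl (fun x hx => h1 x (hsub x hx).1)
        (hs.sublist List.filter_sublist) hRsd
      obtain ⟨h7, h8⟩ := SDD_group (m := m) (h1 a hal) j R.sum hRsum (vecT false m R) h5 h6
      have h9 : vecT false m l = fockT false m R.sum (List.replicate j a) (vecT false m R) := by
        unfold vecT
        conv_lhs => rw [h2]
        rw [SDD_fock_append, zero_add]
      rw [h9]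
      refine ⟨?_, h8⟩
      have h10 : l.sum = R.sum + j * a := by
        conv_lhs => rw [h2]
        rw [List.sum_append, List.sum_replicate, smul_eq_mul]
      rw [h10]
      exact h7

/-- positivity for super-decreasing types, type `D` -/
theorem SDD : SDD_stmt := by
  intro n l hl hsd _ k
  obtain ⟨-, h⟩ := SDD_vec n l.length l rfl hl.1 hl.2.1 hsd
  unfold nrm Finsupp.sum
  rw [finsetSum_coeff]
  apply sum_nonneg
  intro S _
  obtain ⟨c, e, hce⟩ := h S
  simp only [hce]
  rw [mul_pow, ← C_pow, ← pow_mul, coeff_C_mul, coeff_X_pow]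
  split_ifs
  · rw [mul_one]; positivity
  · simp

end Pool.Agent.helper27.PC
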