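import Pool.Agent.helper27.PC2.REPQ
import Pool.Agent.helper23.PC2.COL

/-!
# PC project (second half), module SP: a special value of the traces of the positive part
-/

namespace Pool.Agent.helper27.PC

open Module Finset

/-! ### the words -/

/-- the label of the box number `k` of the second column -/
def SP_c (n k : ℕ) : Lab := (false, n - 1 - k)

/-- letter number `i` of the word number `j` -/
def SP_e (n m j i : ℕ) : Lab :=
  if i < j then SP_c n (m + i) else if i = j then (true, n - 1) else SP_c n (m + i - 1)

/-- the word number `j` -/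
def SP_w (n m N j : ℕ) : List Lab := (List.range N).map (SP_e n m j)

theorem SP_last {N : ℕ} {S S' : St} {w : List Lab} : w ∈ paths (N + 1) S S' ↔
    ∃ u l M, w = u ++ [l] ∧ u ∈ paths N S M ∧ l ∈ addable 1 M ∧ move 1 M l = S' := by
  constructor
  · intro h
    have hl := length_of_mem_paths h
    rw [← List.take_append_drop N w, mem_paths_append (by rw [List.length_take]; omega)] at h
    obtain ⟨M, h1, h2⟩ := h
    rw [show (1 : ℕ) = 0 + 1 from rfl, mem_paths_succ] at h2
    obtain ⟨l, z, h3, h4, h5⟩ := h2
    rw [mem_paths_zero] at h5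
    obtain ⟨rfl, h6⟩ := h5
    refine ⟨w.take N, l, M, ?_, h1, h4, h6⟩
    rw [← h3, List.take_append_drop]
  · rintro ⟨u, l, M, rfl, h1, h2, h3⟩
    rw [mem_paths_append (length_of_mem_paths h1)]
    refine ⟨M, h1, ?_⟩
    rw [show (1 : ℕ) = 0 + 1 from rfl, mem_paths_succ]
    exact ⟨l, [], rfl, h2, by rw [mem_paths_zero]; exact ⟨rfl, h3⟩⟩

theorem SP_col_inj {n i k i' k' : ℕ} (hi : i ≤ n) (hk : k ≤ n) (hi' : i' ≤ n) (hk' : k' ≤ n)
    (h : col n i k = col n i' k') : i = i' ∧ k = k' := by
  have h1 : ((true, n - i) : Lab) ∉ col n i k := by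
    rw [COL_mem]; simp
  have h2 : ((false, n - k) : Lab) ∉ col n i k := by
    rw [COL_mem]; simp
  rw [h, COL_mem] at h1 h2
  simp only [if_true, Bool.false_eq_true, if_false] at h1 h2
  omega

theorem SP_P0 {n m : ℕ} (hm : m ≤ n) : ∀ N m', m' ≤ n → ∀ w,
    w ∈ paths N (col n 0 m) (col n 0 m') ↔
      m' = m + N ∧ w = (List.range N).map (fun i => SP_c n (m + i)) := by
  intro N
  induction N with
  | zero =>
    intro m' hm' w
    rw [mem_paths_zero]
    constructor
    · rintro ⟨h1, h2⟩
      have := (SP_col_inj (by omega) hm (by omega) hm' h2).2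
      exact ⟨by omega, by simpa using h1⟩
    · rintro ⟨h1, h2⟩
      rw [add_zero] at h1
      subst h1
      exact ⟨by simpa using h2, rfl⟩
  | succ N ih =>
    intro m' hm' w
    rw [SP_last]
    constructor
    · rintro ⟨u, ⟨c, p⟩, M, rfl, h1, h2, h3⟩
      rcases (COL_add (le_refl 1) (Nat.zero_le n) hm').1 ⟨h2, h3⟩ with ⟨-, h5, -⟩ | ⟨h4, h5, h6⟩
      · omega
      · rw [h6, ih (m' - 1) (by omega)] at h1
        obtain ⟨h7, h8⟩ := h1
        refine ⟨by omega, ?_⟩
        rw [List.range_succ, List.map_append, ← h8, h4]
        congr 1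
        simp only [List.map_cons, List.map_nil, SP_c, List.cons.injEq, Prod.mk.injEq, true_and,
          and_true]
        omega
    · rintro ⟨h1, h2⟩
      refine ⟨(List.range N).map (fun i => SP_c n (m + i)), (false, n - m'), col n 0 (m' - 1), ?_, ?_,
        (COL_add (le_refl 1) (Nat.zero_le n) hm').2 (Or.inr ⟨rfl, by omega, rfl⟩)⟩
      · rw [h2, List.range_succ, List.map_append]
        congr 1
        simp only [List.map_cons, List.map_nil, SP_c, List.cons.injEq, Prod.mk.injEq, true_and,
          and_true]
        omega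
      · rw [ih (m' - 1) (by omega)]
        exact ⟨by omega, rfl⟩

theorem SP_P1 {n m : ℕ} (hn : 1 ≤ n) (hm : m ≤ n) : ∀ N m', m' ≤ n → ∀ w,
    w ∈ paths N (col n 0 m) (col n 1 m') ↔ m' + 1 = m + N ∧ ∃ j < N, w = SP_w n m N j := by
  intro N
  induction N with
  | zero =>
    intro m' hm' w
    rw [mem_paths_zero]
    constructor
    · rintro ⟨-, h2⟩
      have := (SP_col_inj (by omega) hm hn hm' h2).1
      omega
    · rintro ⟨-, j, h, -⟩
      omega
  | succ N ih =>
    intro m' hm' w
    rw [SP_last]
    have e1 : ∀ j, j < N → SP_w n m (N + 1) j = SP_w n m N j ++ [SP_c n (m + N - 1)] := by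
      intro j hj
      unfold SP_w
      rw [List.range_succ, List.map_append]
      congr 1
      simp only [List.map_cons, List.map_nil, SP_e, List.cons.injEq, and_true]
      rw [if_neg (by omega), if_neg (by omega)]
    have e2 : SP_w n m (N + 1) N = (List.range N).map (fun i => SP_c n (m + i)) ++ [(true, n - 1)] := by
      unfold SP_w
      rw [List.range_succ, List.map_append]
      congr 1
      · apply List.map_congr_left
        intro i hi
        rw [List.mem_range] at hi
        unfold SP_e
        rw [if_pos hi]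
      · simp [SP_e]
    constructor
    · rintro ⟨u, ⟨c, p⟩, M, rfl, h1, h2, h3⟩
      rcases (COL_add (le_refl 1) hn hm').1 ⟨h2, h3⟩ with ⟨h4, h5, h6⟩ | ⟨h4, h5, h6⟩
      · rw [h6, Nat.sub_self, SP_P0 hm N m' hm'] at h1
        refine ⟨by omega, N, by omega, ?_⟩
        rw [e2, h1.2, h4]
      · rw [h6, ih (m' - 1) (by omega)] at h1
        obtain ⟨h7, j, h8, h9⟩ := h1
        refine ⟨by omega, j, by omega, ?_⟩
        rw [e1 j h8, h9, h4]
        congr 2
        unfold SP_c
        simp only [Prod.mk.injEq, true_and]
        omega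
    · rintro ⟨h1, j, h2, rfl⟩
      by_cases hj : j = N
      · subst hj
        refine ⟨(List.range j).map (fun i => SP_c n (m + i)), (true, n - 1), col n 0 m', e2, ?_,
          (COL_add (le_refl 1) hn hm').2 (Or.inl ⟨rfl, le_refl 1, rfl⟩)⟩
        rw [SP_P0 hm j m' hm']
        exact ⟨by omega, rfl⟩
      · refine ⟨SP_w n m N j, (false, n - m'), col n 1 (m' - 1), ?_, ?_,
          (COL_add (le_refl 1) hn hm').2 (Or.inr ⟨rfl, by omega, rfl⟩)⟩
        · rw [e1 j (by omega)]
          congr 2
          unfold SP_c
          simp only [Prod.mk.injEq, true_and]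
          omega
        · rw [ih (m' - 1) (by omega)]
          exact ⟨by omega, j, by omega, rfl⟩

theorem SP_w_inj {n m N j j' : ℕ} (hj : j < N) (h : SP_w n m N j = SP_w n m N j') : j = j' := by
  unfold SP_w at h
  rw [List.map_inj_left] at h
  have h1 := h j (List.mem_range.2 hj)
  unfold SP_e at h1
  rw [if_neg (by omega), if_pos rfl] at h1
  by_contra hne
  rcases lt_or_gt_of_ne hne with h2 | h2
  · rw [if_pos h2] at h1
    exact absurd (congrArg Prod.fst h1) (by simp [SP_c])
  · rw [if_neg (by omega), if_neg (by omega)] at h1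
    exact absurd (congrArg Prod.fst h1) (by simp [SP_c])

section

variable {K : Type*} [Field K]

theorem SP_trP {n m N m' : ℕ} (hn : 1 ≤ n) (hm : m ≤ n) (hm' : m' ≤ n) (h : m' + 1 = m + N)
    (φ : Module.End K (List Lab →₀ K)) :
    trP N (col n 0 m) (col n 1 m') φ =
      ∑ j ∈ range N, φ (Finsupp.single (SP_w n m N j) 1) (SP_w n m N j) := by
  classical
  have e : paths N (col n 0 m) (col n 1 m') = (range N).image (SP_w n m N) := by
    ext w
    rw [SP_P1 hn hm N m' hm', mem_image]
    constructor
    · rintro ⟨-, j, h1, rfl⟩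
      exact ⟨j, mem_range.2 h1, rfl⟩
    · rintro ⟨j, h1, rfl⟩
      exact ⟨h, j, mem_range.1 h1, rfl⟩
  unfold trP
  rw [e, sum_image]
  intro j hj j' _ hjj
  exact SP_w_inj (mem_range.1 (mem_coe.1 hj)) hjj

/-! ### products of operators -/

section abs

variable {V : Type*} [AddCommGroup V] [Module K V] {T : ℕ → Module.End K V} {w : ℕ → V}
  {d : ℕ → ℕ → K} {N : ℕ}

/-- what is needed of the operators -/
structure SP_H (T : ℕ → Module.End K V) (w : ℕ → V) (d : ℕ → ℕ → K) (N : ℕ) : Prop where
  h1 : ∀ i j, i + 1 < N → j < N → j ≠ i → j ≠ i + 1 → T i (w j) = d i j • w j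
  h2 : ∀ i, i + 1 < N → ∃ c : K, T i (w i) = d i i • w i + c • w (i + 1)
  h3 : ∀ i, i + 1 < N → ∃ c : K, T i (w (i + 1)) = d i (i + 1) • w (i + 1) + c • w i

/-- the span of the other vectors -/
def SP_S (K : Type*) [Field K] {V : Type*} [AddCommGroup V] [Module K V] (w : ℕ → V) (N i j : ℕ) :
    Submodule K V :=
  Submodule.span K (w '' {k | i ≤ k ∧ k < N ∧ k ≠ j})

theorem SP_mem {i j k : ℕ} (h1 : i ≤ k) (h2 : k < N) (h3 : k ≠ j) : w k ∈ SP_S K w N i j :=
  Submodule.subset_span ⟨k, ⟨h1, h2, h3⟩, rfl⟩

theorem SP_mono {i i' j : ℕ} (h : i' ≤ i) : SP_S K w N i j ≤ SP_S K w N i' j :=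
  Submodule.span_mono (Set.image_mono fun _ hk => ⟨h.trans hk.1, hk.2⟩)

theorem SP_inc (H : SP_H T w d N) : ∀ l : List ℕ, l.Pairwise (· < ·) → ∀ i₀,
    (∀ i ∈ l, i₀ ≤ i ∧ i + 1 < N) → ∀ j < N,
    (l.map T).prod (w j) - (l.map fun i => d i j).prod • w j ∈ SP_S K w N i₀ j ∧
      (j < i₀ → (l.map T).prod (w j) = (l.map fun i => d i j).prod • w j) := by
  intro l
  induction l with
  | nil =>
    intro _ i₀ _ j _
    simp
  | cons i l ih =>
    intro hp i₀ hl j hj
    rw [List.pairwise_cons] at hp
    obtain ⟨hi1, hi2⟩ := hl i (by simp)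
    obtain ⟨a1, a2⟩ := ih hp.2 (i + 1)
      (fun k hk => ⟨hp.1 k hk, (hl k (List.mem_cons_of_mem _ hk)).2⟩) j hj
    rw [List.map_cons, List.prod_cons, List.map_cons, List.prod_cons, Module.End.mul_apply]
    set P := (l.map fun i => d i j).prod with hP
    by_cases hji : j < i + 1
    · rw [a2 hji, map_smul]
      by_cases hj2 : j = i
      · subst hj2
        obtain ⟨c, hc⟩ := H.h2 j hi2
        rw [hc]
        constructor
        · have e : P • (d j j • w j + c • w (j + 1)) - (d j j * P) • w j = (P * c) • w (j + 1) := by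
            rw [smul_add, smul_smul, smul_smul, mul_comm P (d j j)]
            abel
          rw [e]
          exact Submodule.smul_mem _ _ (SP_mem (by omega) hi2 (by omega))
        · intro h
          omega
      · rw [H.h1 i j hi2 hj hj2 (by omega), smul_smul, mul_comm P]
        exact ⟨by rw [sub_self]; exact Submodule.zero_mem _, fun _ => rfl⟩
    · refine ⟨?_, fun h => by omega⟩
      set r := (l.map T).prod (w j) - P • w j with hr
      have e : (l.map T).prod (w j) = P • w j + r := by rw [hr]; abel
      rw [e, map_add, map_smul]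
      have hTr : T i r ∈ SP_S K w N i₀ j := by
        have : ∀ y ∈ SP_S K w N (i + 1) j, T i y ∈ SP_S K w N i₀ j := by
          intro y hy
          unfold SP_S at hy
          induction hy using Submodule.span_induction with
          | mem x hx =>
            obtain ⟨k, ⟨hk1, hk2, hk3⟩, rfl⟩ := hx
            by_cases hk : k = i + 1
            · subst hk
              obtain ⟨c, hc⟩ := H.h3 i hi2
              rw [hc]
              exact Submodule.add_mem _ (Submodule.smul_mem _ _ (SP_mem (by omega) hk2 hk3))
                (Submodule.smul_mem _ _ (SP_mem hi1 (by omega) (by omega)))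
            · rw [H.h1 i k hi2 hk2 (by omega) hk]
              exact Submodule.smul_mem _ _ (SP_mem (by omega) hk2 hk3)
          | zero => rw [map_zero]; exact Submodule.zero_mem _
          | add x y _ _ hx hy => rw [map_add]; exact Submodule.add_mem _ hx hy
          | smul a x _ hx => rw [map_smul]; exact Submodule.smul_mem _ _ hx
        exact this r a1
      by_cases hj2 : j = i + 1
      · subst hj2
        obtain ⟨c, hc⟩ := H.h3 i hi2
        rw [hc]
        have e : P • (d i (i + 1) • w (i + 1) + c • w i) + T i r - (d i (i + 1) * P) • w (i + 1) =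
            (P * c) • w i + T i r := by
          rw [smul_add, smul_smul, smul_smul, mul_comm P (d i (i + 1))]
          abel
        rw [e]
        exact Submodule.add_mem _ (Submodule.smul_mem _ _ (SP_mem hi1 (by omega) (by omega))) hTr
      · rw [H.h1 i j hi2 hj (by omega) hj2, smul_smul, mul_comm P, add_sub_cancel_left]
        exact hTr

theorem SP_dec (H : SP_H T w d N) : ∀ l : List ℕ, l.Pairwise (· < ·) → ∀ i₀,
    (∀ i ∈ l, i₀ ≤ i ∧ i + 1 < N) → ∀ j < N,
    (l.reverse.map T).prod (w j) - (l.map fun i => d i j).prod • w j ∈ SP_S K w N i₀ j ∧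
      (j < i₀ → (l.reverse.map T).prod (w j) = (l.map fun i => d i j).prod • w j) := by
  intro l
  induction l with
  | nil =>
    intro _ i₀ _ j _
    simp
  | cons i l ih =>
    intro hp i₀ hl j hj
    rw [List.pairwise_cons] at hp
    obtain ⟨hi1, hi2⟩ := hl i (by simp)
    have ih' := ih hp.2 (i + 1)
      (fun k hk => ⟨hp.1 k hk, (hl k (List.mem_cons_of_mem _ hk)).2⟩)
    have e0 : ((i :: l).reverse.map T).prod = (l.reverse.map T).prod * T i := by
      rw [List.reverse_cons, List.map_append, List.prod_append]
      simp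
    rw [e0, List.map_cons, List.prod_cons, Module.End.mul_apply]
    set U := (l.reverse.map T).prod with hU
    by_cases hj1 : j = i
    · subst hj1
      obtain ⟨c, hc⟩ := H.h2 j hi2
      rw [hc, map_add, map_smul, map_smul, (ih' j hj).2 (by omega), smul_smul]
      refine ⟨?_, fun h => by omega⟩
      rw [add_sub_cancel_left]
      apply Submodule.smul_mem
      obtain ⟨b1, -⟩ := ih' (j + 1) hi2
      set P' := (l.map fun i => d i (j + 1)).prod with hP'
      have e : U (w (j + 1)) = (U (w (j + 1)) - P' • w (j + 1)) + P' • w (j + 1) := by abel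
      rw [e]
      refine Submodule.add_mem _ ?_ (Submodule.smul_mem _ _ (SP_mem (by omega) hi2 (by omega)))
      refine (Submodule.span_mono (Set.image_mono ?_)) b1
      rintro k ⟨hk1, hk2, -⟩
      exact ⟨by omega, hk2, by omega⟩
    · by_cases hj2 : j = i + 1
      · subst hj2
        obtain ⟨c, hc⟩ := H.h3 i hi2
        rw [hc, map_add, map_smul, map_smul, (ih' i (by omega)).2 (by omega)]
        refine ⟨?_, fun h => by omega⟩
        obtain ⟨b1, -⟩ := ih' (i + 1) hi2
        set P := (l.map fun k => d k (i + 1)).prod with hP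
        set Q := (l.map fun k => d k i).prod with hQ
        have e : d i (i + 1) • U (w (i + 1)) + c • Q • w i - (d i (i + 1) * P) • w (i + 1) =
            d i (i + 1) • (U (w (i + 1)) - P • w (i + 1)) + (c * Q) • w i := by
          rw [smul_sub, smul_smul, smul_smul]
          abel
        rw [e]
        exact Submodule.add_mem _ (Submodule.smul_mem _ _ (SP_mono (by omega) b1))
          (Submodule.smul_mem _ _ (SP_mem hi1 (by omega) (by omega)))
      · obtain ⟨b1, b2⟩ := ih' j hj
        set P := (l.map fun k => d k j).prod with hP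
        rw [H.h1 i j hi2 hj hj1 hj2, map_smul]
        constructor
        · have e : d i j • U (w j) - (d i j * P) • w j = d i j • (U (w j) - P • w j) := by
            rw [smul_sub, smul_smul]
          rw [e]
          exact Submodule.smul_mem _ _ (SP_mono (by omega) b1)
        · intro h
          rw [b2 (by omega), smul_smul]

end abs

/-! ### sums of products -/

section sums

variable {d : ℕ → ℕ → K} {N : ℕ} {A B : ℕ → K} {z s : K}

/-- what is needed of the diagonal coefficients -/
structure SP_D (d : ℕ → ℕ → K) (N : ℕ) (A B : ℕ → K) (z s : K) : Prop where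
  d1 : ∀ i j, i + 1 < N → j < N → j ≠ i → j ≠ i + 1 → d i j = z
  d2 : ∀ i, i + 1 < N → d i i = A i
  d3 : ∀ i, i + 1 < N → d i (i + 1) = B i
  add : ∀ i, i + 1 < N → A i + B i = z * s
  three : ∀ i, i + 2 < N → B i * (A (i + 1) - z) + z * B (i + 1) = 0

theorem SP_pow (l : List ℕ) (j : ℕ) (h : ∀ i ∈ l, d i j = z) :
    (l.map fun i => d i j).prod = z ^ l.length := by
  induction l with
  | nil => simp
  | cons i l ih =>
    rw [List.map_cons, List.prod_cons, h i (by simp), ih fun i hi => h i (List.mem_cons_of_mem _ hi),
      List.length_cons, pow_succ']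

theorem SP_block (H : SP_D d N A B z s) : ∀ b k, k + b < N →
    ∑ r ∈ range (b + 1), ((List.range' k b).map fun i => d i (k + r)).prod =
      z ^ b * (if b = 0 then 1 else s) := by
  intro b
  induction b with
  | zero => intro k _; simp
  | succ b ih =>
    intro k hk
    have hG : ((List.range' k (b + 1)).map fun i => d i (k + (b + 1))).prod = z ^ b * B (k + b) := by
      rw [List.range'_1_concat, List.map_append, List.prod_append, SP_pow (z := z), List.length_range']
      · simp only [List.map_cons, List.map_nil, List.prod_cons, List.prod_nil, mul_one]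
        rw [show k + (b + 1) = k + b + 1 by ring, H.d3 (k + b) (by omega)]
      · intro i hi
        rw [List.mem_range'_1] at hi
        exact H.d1 i _ (by omega) (by omega) (by omega) (by omega)
    have hS : ∑ r ∈ range (b + 1), ((List.range' k (b + 1)).map fun i => d i (k + r)).prod =
        z * ∑ r ∈ range (b + 1), ((List.range' k b).map fun i => d i (k + r)).prod +
          ((List.range' k b).map fun i => d i (k + b)).prod * (A (k + b) - z) := by
      have e : ∀ r, ((List.range' k (b + 1)).map fun i => d i (k + r)).prod =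
          ((List.range' k b).map fun i => d i (k + r)).prod * d (k + b) (k + r) := by
        intro r
        rw [List.range'_1_concat, List.map_append, List.prod_append]
        simp
      rw [sum_range_succ, sum_range_succ (fun r => ((List.range' k b).map fun i => d i (k + r)).prod)]
      have e2 : ∑ r ∈ range b, ((List.range' k (b + 1)).map fun i => d i (k + r)).prod =
          z * ∑ r ∈ range b, ((List.range' k b).map fun i => d i (k + r)).prod := by
        rw [mul_sum]
        apply sum_congr rfl
        intro r hr
        rw [mem_range] at hr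
        rw [e, H.d1 (k + b) (k + r) (by omega) (by omega) (by omega) (by omega), mul_comm]
      rw [e2, e, H.d2 (k + b) (by omega)]
      ring
    rw [sum_range_succ, hS, hG, ih k (by omega), if_neg (Nat.succ_ne_zero b)]
    rcases Nat.eq_zero_or_pos b with hb | hb
    · subst hb
      have := H.add k (by omega)
      simp only [List.range'_zero, List.map_nil, List.prod_nil, pow_zero, if_true, add_zero, zero_add,
        pow_one, one_mul]
      linear_combination this
    · obtain ⟨c, rfl⟩ : ∃ c, b = c + 1 := ⟨b - 1, by omega⟩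
      have hG' : ((List.range' k (c + 1)).map fun i => d i (k + (c + 1))).prod =
          z ^ c * B (k + c) := by
        rw [List.range'_1_concat, List.map_append, List.prod_append, SP_pow (z := z),
          List.length_range']
        · simp only [List.map_cons, List.map_nil, List.prod_cons, List.prod_nil, mul_one]
          rw [show k + (c + 1) = k + c + 1 by ring, H.d3 (k + c) (by omega)]
        · intro i hi
          rw [List.mem_range'_1] at hi
          exact H.d1 i _ (by omega) (by omega) (by omega) (by omega)
      rw [hG', if_neg (by omega)]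
      have h2 := H.three (k + c) (by omega)
      rw [show k + (c + 1) = k + c + 1 by ring]
      linear_combination (z ^ c) * h2

/-- numbers of the operators in the word of the positive part -/
def SP_pos : ℕ → List ℕ → List ℕ
  | _, [] => []
  | k, a :: l => List.range' k (a - 1) ++ SP_pos (k + a) l

theorem SP_pos_mem : ∀ (α : List ℕ) (k : ℕ), (∀ a ∈ α, 1 ≤ a) → ∀ i ∈ SP_pos k α,
    k ≤ i ∧ i + 1 < k + α.sum := by
  intro α
  induction α with
  | nil => intro k _ i hi; simp [SP_pos] at hi
  | cons a l ih =>
    intro k h i hi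
    have ha := h a (by simp)
    rw [SP_pos, List.mem_append, List.mem_range'_1] at hi
    rw [List.sum_cons]
    rcases hi with hi | hi
    · omega
    · have := ih (k + a) (fun b hb => h b (List.mem_cons_of_mem _ hb)) i hi
      omega

theorem SP_pos_pairwise : ∀ (α : List ℕ) (k : ℕ), (∀ a ∈ α, 1 ≤ a) →
    (SP_pos k α).Pairwise (· < ·) := by
  intro α
  induction α with
  | nil => intro k _; exact List.Pairwise.nil
  | cons a l ih =>
    intro k h
    rw [SP_pos, List.pairwise_append]
    refine ⟨List.pairwise_lt_range', ih _ (fun b hb => h b (List.mem_cons_of_mem _ hb)), ?_⟩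
    intro x hx y hy
    rw [List.mem_range'_1] at hx
    have := SP_pos_mem l (k + a) (fun b hb => h b (List.mem_cons_of_mem _ hb)) y hy
    omega

theorem SP_pos_length : ∀ (α : List ℕ) (k : ℕ), (∀ a ∈ α, 1 ≤ a) →
    (SP_pos k α).length + α.length = α.sum := by
  intro α
  induction α with
  | nil => intro k _; rfl
  | cons a l ih =>
    intro k h
    have := ih (k + a) (fun b hb => h b (List.mem_cons_of_mem _ hb))
    have ha := h a (by simp)
    rw [SP_pos, List.length_append, List.length_range', List.length_cons, List.sum_cons]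
    omega

theorem SP_posWord : ∀ (α : List ℕ) (k : ℕ), posWord k α = (SP_pos k α).map (· + 1) := by
  intro α
  induction α with
  | nil => intro k; rfl
  | cons a l ih =>
    intro k
    rw [posWord, SP_pos, List.map_append, ih]
    congr 1
    apply List.ext_getElem
    · simp
    · intro i h1 h2
      simp only [List.getElem_range', List.getElem_map]
      omega

theorem SP_sum (H : SP_D d N A B z s) : ∀ (α : List ℕ) (k : ℕ), (∀ a ∈ α, 1 ≤ a) → k + α.sum ≤ N →
    ∑ r ∈ range α.sum, ((SP_pos k α).map fun i => d i (k + r)).prod =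
      z ^ (SP_pos k α).length * ((α.count 1 : K) + ((α.length - α.count 1 : ℕ) : K) * s) := by
  intro α
  induction α with
  | nil => intro k _ _; simp
  | cons a l ih =>
    intro k h hk
    have ha := h a (by simp)
    have h' : ∀ b ∈ l, 1 ≤ b := fun b hb => h b (List.mem_cons_of_mem _ hb)
    rw [List.sum_cons] at hk
    rw [List.sum_cons, sum_range_add]
    have e1 : ∑ r ∈ range a, ((SP_pos k (a :: l)).map fun i => d i (k + r)).prod =
        z ^ (a - 1) * (if a = 1 then 1 else s) * z ^ (SP_pos (k + a) l).length := by
      have hb := SP_block H (a - 1) k (by omega)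
      rw [Nat.sub_add_cancel ha] at hb
      have e3 : (if a - 1 = 0 then (1 : K) else s) = if a = 1 then 1 else s := by
        by_cases h1 : a = 1
        · rw [if_pos (by omega), if_pos h1]
        · rw [if_neg (by omega), if_neg h1]
      rw [e3] at hb
      rw [← hb, sum_mul]
      apply sum_congr rfl
      intro r hr
      rw [mem_range] at hr
      rw [SP_pos, List.map_append, List.prod_append, SP_pow (z := z) (SP_pos (k + a) l)]
      intro i hi
      have := SP_pos_mem l (k + a) h' i hi
      exact H.d1 i _ (by omega) (by omega) (by omega) (by omega)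
    have e2 : ∑ r ∈ range l.sum, ((SP_pos k (a :: l)).map fun i => d i (k + (a + r))).prod =
        z ^ (a - 1) * (z ^ (SP_pos (k + a) l).length *
          ((l.count 1 : K) + ((l.length - l.count 1 : ℕ) : K) * s)) := by
      rw [← ih (k + a) h' (by omega), mul_sum]
      apply sum_congr rfl
      intro r hr
      rw [mem_range] at hr
      rw [SP_pos, List.map_append, List.prod_append, SP_pow (z := z) (List.range' k (a - 1)),
        List.length_range', ← add_assoc]
      intro i hi
      rw [List.mem_range'_1] at hi
      exact H.d1 i _ (by omega) (by omega) (by omega) (by omega)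
    rw [e1, e2, SP_pos, List.length_append, List.length_range', List.length_cons, pow_add]
    have hc : l.count 1 ≤ l.length := List.count_le_length
    by_cases h1 : a = 1
    · rw [if_pos h1, h1, List.count_cons_self, Nat.sub_self, pow_zero,
        show l.length + 1 - (l.count 1 + 1) = l.length - l.count 1 by omega]
      push_cast
      ring
    · rw [if_neg h1, List.count_cons_of_ne h1,
        show l.length + 1 - l.count 1 = l.length - l.count 1 + 1 by omega]
      push_cast
      ring

end sums

/-! ### the operators `Top` -/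

section conc

variable {v : K} {x : Lab → K}

theorem SP_range_split {i N : ℕ} (hi : i + 1 < N) :
    List.range N = List.range i ++ i :: (i + 1) :: List.range' (i + 2) (N - (i + 2)) := by
  obtain ⟨k, rfl⟩ : ∃ k, N = i + (k + 2) := ⟨N - (i + 2), by omega⟩
  rw [List.range_eq_range', List.range_eq_range', ← List.range'_append_1, zero_add]
  congr 1
  rw [List.range'_succ, List.range'_succ]
  congr 3
  omega

/-- the word with two letters exchanged -/
def SP_x (n m N j i : ℕ) : List Lab :=
  (List.range i).map (SP_e n m j) ++ SP_e n m j (i + 1) :: SP_e n m j i ::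
    (List.range' (i + 2) (N - (i + 2))).map (SP_e n m j)

theorem SP_top {n m N i j : ℕ} (hi : i + 1 < N) :
    Top v x i (Finsupp.single (SP_w n m N j) 1) =
      cA v x (SP_e n m j i) (SP_e n m j (i + 1)) • Finsupp.single (SP_w n m N j) 1 +
        cB v x (SP_e n m j i) (SP_e n m j (i + 1)) • Finsupp.single (SP_x n m N j i) 1 := by
  have e : SP_w n m N j = (List.range i).map (SP_e n m j) ++ SP_e n m j i :: SP_e n m j (i + 1) ::
      (List.range' (i + 2) (N - (i + 2))).map (SP_e n m j) := by
    unfold SP_w
    rw [SP_range_split hi]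
    simp
  rw [e, Top_append (by simp)]
  unfold SP_x
  rw [Finsupp.smul_single, Finsupp.smul_single, smul_eq_mul, smul_eq_mul, mul_one, mul_one, one_mul,
    one_mul]

theorem SP_x1 {n m N i : ℕ} (hi : i + 1 < N) : SP_x n m N i i = SP_w n m N (i + 1) := by
  unfold SP_x SP_w
  rw [SP_range_split hi, List.map_append, List.map_cons, List.map_cons]
  congr 1
  · apply List.map_congr_left
    intro k hk
    rw [List.mem_range] at hk
    unfold SP_e
    rw [if_pos hk, if_pos (by omega)]
  · congr 1
    · unfold SP_e
      rw [if_neg (by omega), if_neg (by omega), if_pos (by omega)]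
      rfl
    · congr 1
      · unfold SP_e
        rw [if_neg (by omega), if_pos rfl, if_neg (by omega), if_pos rfl]
      · apply List.map_congr_left
        intro k hk
        rw [List.mem_range'_1] at hk
        unfold SP_e
        rw [if_neg (by omega), if_neg (by omega), if_neg (by omega), if_neg (by omega)]

theorem SP_x2 {n m N i : ℕ} (hi : i + 1 < N) : SP_x n m N (i + 1) i = SP_w n m N i := by
  unfold SP_x SP_w
  rw [SP_range_split hi, List.map_append, List.map_cons, List.map_cons]
  congr 1
  · apply List.map_congr_left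
    intro k hk
    rw [List.mem_range] at hk
    unfold SP_e
    rw [if_pos (by omega), if_pos (by omega)]
  · congr 1
    · unfold SP_e
      rw [if_neg (by omega), if_pos rfl, if_neg (by omega), if_pos rfl]
    · congr 1
      · unfold SP_e
        rw [if_pos (by omega), if_neg (by omega), if_neg (by omega)]
        rfl
      · apply List.map_congr_left
        intro k hk
        rw [List.mem_range'_1] at hk
        unfold SP_e
        rw [if_neg (by omega), if_neg (by omega), if_neg (by omega), if_neg (by omega)]

theorem SP_dn {n m N i j : ℕ} (hmN : m + N ≤ n) (hi : i + 1 < N) (h1 : j ≠ i) (h2 : j ≠ i + 1) :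
    SP_e n m j i = up 1 (SP_e n m j (i + 1)) := by
  unfold SP_e
  by_cases h : i + 1 < j
  · rw [if_pos (by omega), if_pos h]
    unfold SP_c up
    simp only [Prod.mk.injEq, true_and]
    omega
  · rw [if_neg (by omega), if_neg (by omega), if_neg h, if_neg (by omega)]
    unfold SP_c up
    simp only [Prod.mk.injEq, true_and]
    omega

/-- the diagonal coefficients -/
noncomputable def SP_d (v : K) (x : Lab → K) (n m i j : ℕ) : K :=
  cA v x (SP_e n m j i) (SP_e n m j (i + 1))

theorem SP_hH (hx : XOK v x) {n m N : ℕ} (hmN : m + N ≤ n) :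
    SP_H (Top v x) (fun j => Finsupp.single (SP_w n m N j) 1) (SP_d v x n m) N := by
  refine ⟨?_, ?_, ?_⟩
  · intro i j hi _ h1 h2
    show Top v x i (Finsupp.single (SP_w n m N j) 1) = _
    rw [SP_top hi, SP_dn hmN hi h1 h2, cB_down hx, zero_smul, add_zero]
    unfold SP_d
    rw [SP_dn hmN hi h1 h2]
  · intro i hi
    refine ⟨cB v x (SP_e n m i i) (SP_e n m i (i + 1)), ?_⟩
    show Top v x i (Finsupp.single (SP_w n m N i) 1) = _
    rw [SP_top hi, SP_x1 hi]
    rfl
  · intro i hi
    refine ⟨cB v x (SP_e n m (i + 1) i) (SP_e n m (i + 1) (i + 1)), ?_⟩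
    show Top v x i (Finsupp.single (SP_w n m N (i + 1)) 1) = _
    rw [SP_top hi, SP_x2 hi]
    rfl

theorem SP_hD (hx : XOK v x) {n m N : ℕ} (hmN : m + N ≤ n) :
    SP_D (SP_d v x n m) N (fun i => cA v x (true, n - 1) (SP_c n (m + i)))
      (fun i => cA v x (SP_c n (m + i)) (true, n - 1)) (-v⁻¹) (1 - v ^ 2) := by
  have h0 := hx.v0
  have hne : ∀ k, ((true, n - 1) : Lab) ≠ SP_c n k := by
    intro k h
    exact absurd (congrArg Prod.fst h) (by simp [SP_c])
  have hup : ∀ i, i + 2 < N → SP_c n (m + i) = up 1 (SP_c n (m + (i + 1))) := by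
    intro i hi
    unfold SP_c up
    simp only [Prod.mk.injEq, true_and]
    omega
  refine ⟨?_, ?_, ?_, ?_, ?_⟩
  · intro i j hi _ h1 h2
    unfold SP_d
    rw [SP_dn hmN hi h1 h2, cA_down hx]
  · intro i hi
    unfold SP_d SP_e
    rw [if_neg (by omega), if_pos rfl, if_neg (by omega), if_neg (by omega)]
    rfl
  · intro i hi
    unfold SP_d SP_e
    rw [if_pos (by omega), if_neg (by omega), if_pos rfl]
  · intro i hi
    show cA v x (true, n - 1) (SP_c n (m + i)) + cA v x (SP_c n (m + i)) (true, n - 1) = _
    rw [cA_add hx (hne _)]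
    field_simp
    ring
  · intro i hi
    show cA v x (SP_c n (m + i)) (true, n - 1) *
      (cA v x (true, n - 1) (SP_c n (m + (i + 1))) - -v⁻¹) +
        -v⁻¹ * cA v x (SP_c n (m + (i + 1))) (true, n - 1) = 0
    have hcc : SP_c n (m + i) ≠ SP_c n (m + (i + 1)) := by
      rw [hup i hi]
      intro h
      have := congrArg Prod.snd h
      unfold up at this
      simp only at this
      omega
    have h3 := cA_three hx (hne (m + i)).symm hcc (hne (m + (i + 1)))
    have h4 := cA_add hx (hne (m + (i + 1)))
    have h5 : cA v x (SP_c n (m + i)) (SP_c n (m + (i + 1))) = -v⁻¹ := by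
      rw [hup i hi, cA_down hx]
    rw [h5] at h3
    linear_combination h3 - v⁻¹ * h4

theorem SP_eval {n m N i j : ℕ} (hj : j < N) {y : List Lab →₀ K}
    (hy : y ∈ SP_S K (fun j => (Finsupp.single (SP_w n m N j) 1 : List Lab →₀ K)) N i j) :
    y (SP_w n m N j) = 0 := by
  unfold SP_S at hy
  induction hy using Submodule.span_induction with
  | mem x hx =>
    obtain ⟨k, ⟨hk1, hk2, hk3⟩, rfl⟩ := hx
    show (Finsupp.single (SP_w n m N k) 1 : List Lab →₀ K) (SP_w n m N j) = 0
    rw [Finsupp.single_apply, if_neg]
    intro h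
    exact hk3 (SP_w_inj hk2 h)
  | zero => rfl
  | add x y _ _ hx hy => rw [Finsupp.add_apply, hx, hy, add_zero]
  | smul a x _ hx => rw [Finsupp.smul_apply, hx, smul_zero]

end conc

end

/-- module SP -/
theorem SP : SP_stmt := by
  intro t K _ v hv n m α hα h1 hmn
  have hq := GenQ_Qt hv t
  have hx := xQ_ok hq n
  have h0 := hx.v0
  set x := xQ (Qt t v) v n with hxdef
  set N := α.sum with hN
  have H := SP_hH hx hmn
  have D := SP_hD hx hmn
  have hlen : (SP_pos 0 α).length = N - α.length := by
    have := SP_pos_length α 0 hα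
    omega
  have hmem : ∀ i ∈ SP_pos 0 α, 0 ≤ i ∧ i + 1 < N := by
    intro i hi
    have := SP_pos_mem α 0 hα i hi
    omega
  have hsum := SP_sum D α 0 hα (by omega)
  have hop : ∀ l : List ℕ, opWQ (Qt t v) v n (l.map (· + 1)) = (l.map (Top v x)).prod := by
    intro l
    unfold opWQ
    rw [List.map_map]
    rfl
  have hfin : v ^ (N - α.length) * ∑ j ∈ range N, ((SP_pos 0 α).map fun i => SP_d v x n m i j).prod =
      (-1) ^ (N - α.length) *
      ((α.count 1 : K) + ((α.length - α.count 1 : ℕ) : K) * (1 - v ^ 2)) := by
    simp only [zero_add] at hsum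
    rw [hsum, hlen, ← mul_assoc, ← mul_pow]
    congr 2
    field_simp
  have key : ∀ (φ : Module.End K (List Lab →₀ K)),
      (∀ j < N, φ (Finsupp.single (SP_w n m N j) 1) -
        ((SP_pos 0 α).map fun i => SP_d v x n m i j).prod • (Finsupp.single (SP_w n m N j) 1) ∈
        SP_S K (fun j => (Finsupp.single (SP_w n m N j) 1 : List Lab →₀ K)) N 0 j) →
      trP N (col n 0 m) (col n 1 (m + N - 1)) φ =
        ∑ j ∈ range N, ((SP_pos 0 α).map fun i => SP_d v x n m i j).prod := by
    intro φ hφ
    rw [SP_trP (by omega) (by omega) (by omega) (by omega)]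
    apply sum_congr rfl
    intro j hj
    rw [mem_range] at hj
    have := SP_eval hj (hφ j hj)
    rw [Finsupp.sub_apply, Finsupp.smul_apply, Finsupp.single_eq_same, smul_eq_mul, mul_one] at this
    exact sub_eq_zero.1 this
  constructor
  · rw [SP_posWord, hop, key _ fun j hj => (SP_inc H _ (SP_pos_pairwise α 0 hα) 0 hmem j hj).1, hfin]
  · rw [SP_posWord, ← List.map_reverse, hop,
      key _ fun j hj => (SP_dec H _ (SP_pos_pairwise α 0 hα) 0 hmem j hj).1, hfin]

end Pool.Agent.helper27.PC
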